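import Pool.Agent.W2helper42.TQ.Stm2

/-!
# Piece DEV of project TQ: from affine schemes to all schemes of finite type
-/

set_option autoImplicit false

namespace Pool.Agent.W2helper75.TQ

open AlgebraicGeometry CategoryTheory Pool.Agent.W2helper42.TQ

theorem ft_comp {p : ℕ} {X Y : Scheme.{0}} (i : X ⟶ Y) [LocallyOfFiniteType i] [QuasiCompact i]
    [IsSeparated i] (h : FT p Y) : FT p X := by
  obtain ⟨f, h1, h2, h3⟩ := h
  exact ⟨i ≫ f, inferInstance, inferInstance, inferInstance⟩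

theorem affine_case {p : ℕ} {Pr : Scheme.{0} → Prop} (hN : IsNiceSch p Pr)
    (hA : ∀ (R : Type) [CommRing R], Fg p R → Pr (Spec (CommRingCat.of R))) (X : Scheme.{0})
    [IsAffine X] (h : FT p X) : Pr X := by
  have hS : FT p (Spec Γ(X, ⊤)) := ft_comp X.isoSpec.inv h
  obtain ⟨g, h1, h2, h3⟩ := hS
  have hfg : Fg p Γ(X, ⊤) := by
    refine ⟨(Spec.preimage g).hom, ?_⟩
    rw [← HasRingHomProperty.Spec_iff (P := @LocallyOfFiniteType), Spec.map_preimage]
    exact h1
  exact hN.iso (Spec Γ(X, ⊤)) X ⟨g, h1, h2, h3⟩ X.isoSpec.symm (hA Γ(X, ⊤) hfg)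

theorem aux {p : ℕ} {Pr : Scheme.{0} → Prop} (hN : IsNiceSch p Pr)
    (hA : ∀ (R : Type) [CommRing R], Fg p R → Pr (Spec (CommRingCat.of R))) (n : ℕ) :
    ∀ (X : Scheme.{0}), FT p X → ∀ U : Fin n → X.Opens, (∀ i, IsAffineOpen (U i)) →
      (∀ x : X, ∃ i, x ∈ U i) → Pr X := by
  induction n with
  | zero =>
    intro X hX U _ hc
    have : IsEmpty X := ⟨fun x => by obtain ⟨i, _⟩ := hc x; exact i.elim0⟩
    exact affine_case hN hA X hX
  | succ n ih =>
    intro X hX U hU hc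
    set C : TopologicalSpace.Closeds X := ⟨(U 0 : Set X)ᶜ, (U 0).2.isClosed_compl⟩ with hC
    set I := Scheme.IdealSheafData.vanishingIdeal C with hI
    have hr : Set.range I.subschemeι = (U 0 : Set X)ᶜ := by
      rw [Scheme.IdealSheafData.range_subschemeι, hI,
        Scheme.IdealSheafData.coe_support_vanishingIdeal]
      rfl
    have hZ : Pr I.subscheme := by
      refine ih I.subscheme (ft_comp I.subschemeι hX) (fun k => I.subschemeι ⁻¹ᵁ U k.succ)
        (fun k => (hU k.succ).preimage _) ?_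
      intro x
      obtain ⟨m, hm⟩ := hc (I.subschemeι x)
      have hx : I.subschemeι x ∈ (U 0 : Set X)ᶜ := by
        rw [← hr]; exact ⟨x, rfl⟩
      have hm0 : m ≠ 0 := by
        rintro rfl
        exact hx hm
      obtain ⟨k, rfl⟩ := Fin.exists_succ_eq.2 hm0
      exact ⟨k, hm⟩
    have hUa : IsAffine (U 0 : Scheme) := hU 0
    have hUP : Pr (U 0 : Scheme) := by
      refine affine_case hN hA _ ?_
      obtain ⟨f, h1, h2, h3⟩ := hX
      exact ⟨(U 0).ι ≫ f, inferInstance, inferInstance, inferInstance⟩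
    refine hN.total I.subscheme X (U 0 : Scheme) I.subschemeι (U 0).ι inferInstance inferInstance
      hX ?_ hZ hUP
    rw [hr, Scheme.Opens.range_ι]

theorem piece_DEV : S_DEV := by
  intro p Pr hN hA X hX
  obtain ⟨f, h1, h2, h3⟩ := hX
  have hcs : CompactSpace X := QuasiCompact.compactSpace_of_compactSpace f
  obtain ⟨s, hs, hu⟩ := (isCompact_and_isOpen_iff_finite_and_eq_biUnion_affineOpens
    (X := X) (U := Set.univ)).1 ⟨isCompact_univ, isOpen_univ⟩
  have : Finite s := hs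
  obtain ⟨n, ⟨e⟩⟩ := Finite.exists_equiv_fin s
  refine aux hN hA n X ⟨f, h1, h2, h3⟩ (fun i => ((e.symm i : s) : X.affineOpens).1)
    (fun i => ((e.symm i : s) : X.affineOpens).2) ?_
  intro x
  have hx : x ∈ (Set.univ : Set X) := Set.mem_univ x
  rw [hu, Set.mem_iUnion₂] at hx
  obtain ⟨V, hV, hxV⟩ := hx
  exact ⟨e ⟨V, hV⟩, by simpa using hxV⟩

end Pool.Agent.W2helper75.TQ
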